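import Pool.Agent.V1195.HaarFin

/-!
# MP_02a511_an, Q1: yes.

The Haar shift `T` (the bounded operator on `L²(ℝ)` with `T h_{I_+} = h_{I_-}`,
`T h_{I_-} = -h_{I_+}` for every dyadic interval `I`) satisfies
`∫_V (T 1_V)² ≤ (99/100) |V|` for every measurable set `V` of finite measure, equivalently
`∫_{ℝ∖V} (T 1_V)² ≥ (1/100) |V|`.

The proof uses an explicit polynomial Bellman function of the pairs
(average of `1_V`, average of `T 1_V`) over the two halves of a dyadic interval
(`Pool.Agent.V1195.HaarG.G`).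
-/

open MeasureTheory Set
open scoped ENNReal InnerProductSpace

namespace Pool.Agent.Results.MP_02a511_an.IndicatorGap

open Pool.Agent.V1195.HaarShift

/-- `T` applied to the Haar functions -/
noncomputable def shiftFam (p : ℤ × ℤ) : Lp ℝ 2 (volume : Measure ℝ) :=
  if Even p.2 then -haar p.1 (p.2 + 1) else haar p.1 (p.2 - 1)

theorem orthonormal_haar : Orthonormal ℝ (fun p : ℤ × ℤ => haar p.1 p.2) := by
  classical
  rw [orthonormal_iff_ite]
  rintro ⟨j, k⟩ ⟨j', k'⟩
  rw [inner_haar_haar]
  simp only [Prod.mk.injEq]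

theorem orthonormal_shiftFam : Orthonormal ℝ shiftFam := by
  classical
  rw [orthonormal_iff_ite]
  rintro ⟨j, k⟩ ⟨j', k'⟩
  unfold shiftFam
  rcases Int.even_or_odd' k with ⟨m, hm | hm⟩ <;> rcases Int.even_or_odd' k' with ⟨m', hm' | hm'⟩
  · have h1 : Even k := ⟨m, by omega⟩
    have h2 : Even k' := ⟨m', by omega⟩
    simp only [h1, h2, if_true, inner_neg_neg, inner_haar_haar, Prod.mk.injEq]
    by_cases h : j = j' ∧ k = k'
    · rw [if_pos h, if_pos (by omega)]
    · rw [if_neg h, if_neg (by omega)]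
  · have h1 : Even k := ⟨m, by omega⟩
    have h2 : ¬ Even k' := by rw [Int.not_even_iff_odd]; exact ⟨m', by omega⟩
    simp only [h1, h2, if_true, if_false, inner_neg_left, inner_haar_haar, Prod.mk.injEq]
    rw [if_neg (by omega), if_neg (by omega), neg_zero]
  · have h1 : ¬ Even k := by rw [Int.not_even_iff_odd]; exact ⟨m, by omega⟩
    have h2 : Even k' := ⟨m', by omega⟩
    simp only [h1, h2, if_true, if_false, inner_neg_right, inner_haar_haar, Prod.mk.injEq]
    rw [if_neg (by omega), if_neg (by omega), neg_zero]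
  · have h1 : ¬ Even k := by rw [Int.not_even_iff_odd]; exact ⟨m, by omega⟩
    have h2 : ¬ Even k' := by rw [Int.not_even_iff_odd]; exact ⟨m', by omega⟩
    simp only [h1, h2, if_false, inner_haar_haar, Prod.mk.injEq]
    by_cases h : j = j' ∧ k = k'
    · rw [if_pos h, if_pos (by omega)]
    · rw [if_neg h, if_neg (by omega)]

theorem dense_haar : ⊤ ≤ (Submodule.span ℝ (range (fun p : ℤ × ℤ => haar p.1 p.2))).topologicalClosure := by
  intro f _
  have : f ∈ closure (Submodule.span ℝ HS : Set (Lp ℝ 2 (volume : Measure ℝ))) := by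
    rw [HS_dense]; trivial
  exact this

theorem dense_shiftFam : ⊤ ≤ (Submodule.span ℝ (range shiftFam)).topologicalClosure := by
  refine dense_haar.trans (Submodule.topologicalClosure_mono (Submodule.span_le.2 ?_))
  rintro _ ⟨⟨j, k⟩, rfl⟩
  rcases Int.even_or_odd' k with ⟨m, hm | hm⟩
  · have h1 : ¬ Even (k + 1) := by rw [Int.not_even_iff_odd]; exact ⟨m, by omega⟩
    have e : haar j k = shiftFam (j, k + 1) := by
      unfold shiftFam
      simp only [h1, if_false, add_sub_cancel_right]
    show haar j k ∈ _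
    rw [e]
    exact Submodule.subset_span ⟨_, rfl⟩
  · have h1 : Even (k - 1) := ⟨m, by omega⟩
    have e : haar j k = -shiftFam (j, k - 1) := by
      unfold shiftFam
      simp only [h1, if_true, sub_add_cancel, neg_neg]
    show haar j k ∈ _
    rw [e]
    exact Submodule.neg_mem _ (Submodule.subset_span ⟨_, rfl⟩)

theorem exists_shift : ∃ T : Lp ℝ 2 (volume : Measure ℝ) →L[ℝ] Lp ℝ 2 (volume : Measure ℝ),
    IsHaarShift T := by
  classical
  set b := HilbertBasis.mk orthonormal_haar dense_haar with hb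
  set b' := HilbertBasis.mk orthonormal_shiftFam dense_shiftFam with hb'
  have key : ∀ p : ℤ × ℤ, (b.repr.trans b'.repr.symm) (haar p.1 p.2) = shiftFam p := by
    intro p
    have e1 : haar p.1 p.2 = b p := by
      rw [hb, HilbertBasis.coe_mk]
    have e2 : shiftFam p = b' p := by
      rw [hb', HilbertBasis.coe_mk]
    rw [LinearIsometryEquiv.trans_apply, e1, HilbertBasis.repr_self, HilbertBasis.repr_symm_single,
      ← e2]
  refine ⟨((b.repr.trans b'.repr.symm).toContinuousLinearEquiv :
    Lp ℝ 2 (volume : Measure ℝ) →L[ℝ] Lp ℝ 2 (volume : Measure ℝ)), fun j k => ⟨?_, ?_⟩⟩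
  · have h1 : ¬ Even (2 * k + 1) := by rw [Int.not_even_iff_odd]; exact ⟨k, rfl⟩
    have h := key (j, 2 * k + 1)
    unfold shiftFam at h
    simp only [h1, if_false, add_sub_cancel_right] at h
    exact h
  · have h1 : Even (2 * k) := ⟨k, by omega⟩
    have h := key (j, 2 * k)
    unfold shiftFam at h
    simp only [h1, if_true] at h
    exact h

/-- `∫_A (T 1_V)²`, where `1_V ∈ L²(ℝ)` is the indicator function of `V` -/
noncomputable def energy (T : L2R →L[ℝ] L2R) (A V : Set ℝ) (hV : MeasurableSet V)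
    (hV' : volume V ≠ ∞) : ℝ :=
  ∫ x in A, (T (indicatorConstLp 2 hV hV' (1 : ℝ)) x) ^ 2

/-- **Answer to Q1 (yes, with `η = 99/100`).**  There is exactly one bounded operator `T` on
`L²(ℝ)` with `T h_{I_+} = h_{I_-}` and `T h_{I_-} = -h_{I_+}` for all dyadic `I`, and it satisfies
`∫_V (T 1_V)² ≤ (99/100) |V|` and `∫_{ℝ∖V} (T 1_V)² ≥ (1/100) |V|` for every measurable `V ⊆ ℝ` of
finite measure. -/
theorem result :
    (∃! T : L2R →L[ℝ] L2R, IsHaarShift T) ∧
    ∀ T : L2R →L[ℝ] L2R, IsHaarShift T →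
      ∀ (V : Set ℝ) (hV : MeasurableSet V) (hV' : volume V ≠ ∞),
        energy T V V hV hV' ≤ 99 / 100 * (volume V).toReal ∧
        1 / 100 * (volume V).toReal ≤ energy T Vᶜ V hV hV' := by
  refine ⟨?_, ?_⟩
  · obtain ⟨T, hT⟩ := exists_shift
    refine ⟨T, hT, fun T' hT' => ?_⟩
    have hd : Dense (Submodule.span ℝ HS : Set (Lp ℝ 2 (volume : Measure ℝ))) :=
      dense_iff_closure_eq.2 HS_dense
    refine ContinuousLinearMap.ext_on hd ?_
    rintro _ ⟨⟨j, k⟩, rfl⟩
    show T' (haar j k) = T (haar j k)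
    rcases Int.even_or_odd' k with ⟨m, hm | hm⟩
    · rw [hm, (hT' j m).2, (hT j m).2]
    · rw [hm, (hT' j m).1, (hT j m).1]
  · intro T hT V hV hV'
    unfold energy
    have h1 := main hT hV hV'
    refine ⟨h1, ?_⟩
    have h2 := integral_add_compl hV (integrable_sq (T (indicatorConstLp 2 hV hV' (1 : ℝ))))
    rw [integral_sq, norm_T hT, norm_sq_indicator] at h2
    have e : (volume V).toReal = volume.real V := rfl
    rw [e]
    linarith

end Pool.Agent.Results.MP_02a511_an.IndicatorGap
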